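import Pool.Agent.Helper57.NX.Defs2
import Pool.Agent.Helper5.NX.Basic
import Pool.Agent.Helper25.NX.Gcs
import Pool.Agent.Helper88.NX.BoxNorm
import Pool.Agent.Helper36.NX.U2Block

/-!
# NX-11: degree lowering, first half
-/

set_option autoImplicit false

open Finset
open scoped BigOperators ComplexConjugate

namespace Pool.Agent.Helper57.NX

noncomputable section

/-! ### small lemmas -/

section dla_basic

theorem dla_norm_expect_le {ι : Type} (s : Finset ι) (f : ι → ℂ) :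
    ‖𝔼 i ∈ s, f i‖ ≤ 𝔼 i ∈ s, ‖f i‖ := RCLike.norm_expect_le (K := ℂ)

theorem dla_expect_le_const {ι : Type} (s : Finset ι) (f : ι → ℝ) (c : ℝ) (hc : 0 ≤ c)
    (h : ∀ i ∈ s, f i ≤ c) : 𝔼 i ∈ s, f i ≤ c := by
  rcases s.eq_empty_or_nonempty with rfl | hs
  · simpa using hc
  · exact expect_le hs h

theorem dla_norm_expect_le_const {ι : Type} (s : Finset ι) (f : ι → ℂ) (c : ℝ) (hc : 0 ≤ c)
    (h : ∀ i ∈ s, ‖f i‖ ≤ c) : ‖𝔼 i ∈ s, f i‖ ≤ c :=
  (dla_norm_expect_le s f).trans (dla_expect_le_const s _ c hc h)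

/-- maximum is at least the average -/
theorem dla_exists_ge {ι : Type} (s : Finset ι) (hs : s.Nonempty) (f : ι → ℝ) :
    ∃ i ∈ s, 𝔼 j ∈ s, f j ≤ f i := by
  obtain ⟨i, hi, him⟩ := s.exists_max_image f hs
  exact ⟨i, hi, expect_le hs him⟩

theorem dla_sum_range_mul {M : Type} [AddCommMonoid M] (J X : ℕ) (H : ℕ → M) :
    ∑ v ∈ range (J * X), H v = ∑ j ∈ range J, ∑ t ∈ range X, H (j * X + t) := by
  induction J with
  | zero => simp
  | succ J ih => rw [Nat.succ_mul, sum_range_add, ih, sum_range_succ]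

variable {N : ℕ} [NeZero N]

theorem dla_sum_zmod {M : Type} [AddCommMonoid M] (r : ZMod N) (G : ZMod N → M) :
    ∑ x, G x = ∑ v ∈ range N, G (r + (v : ZMod N)) := by
  rw [← Equiv.sum_comp (Equiv.addLeft r) G]
  refine Finset.sum_bij' (fun x _ => x.val) (fun v _ => (v : ZMod N)) ?_ ?_ ?_ ?_ ?_
  · intro x _
    exact mem_range.2 (ZMod.val_lt x)
  · intro v _
    exact mem_univ _
  · intro x _
    exact ZMod.natCast_zmod_val x
  · intro v hv
    exact ZMod.val_natCast_of_lt (mem_range.1 hv)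
  · intro x _
    simp

theorem dla_val {r : ZMod N} {v : ℕ} (hv : v < N) : (r + (v : ZMod N) - r).val = v := by
  rw [add_sub_cancel_left]
  exact ZMod.val_natCast_of_lt hv

theorem dla_blk {X : ℕ} (hX : 1 ≤ X) (j t : ℕ) (ht : t < X) : (j * X + t) / X = j := by
  rw [mul_comm, Nat.mul_add_div hX, Nat.div_eq_of_lt ht, add_zero]

/-- sum over the blocks -/
theorem dla_sum_blocks {M : Type} [AddCommMonoid M] (X : ℕ) (hX : 1 ≤ X) (r : ZMod N)
    (G : ZMod N → M) (hG : ∀ v < N, N / X ≤ v / X → G (r + (v : ZMod N)) = 0) :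
    ∑ x, G x = ∑ j ∈ range (N / X), ∑ t ∈ range X, G (r + ((j * X + t : ℕ) : ZMod N)) := by
  rw [dla_sum_zmod r G, ← dla_sum_range_mul (N / X) X (fun v => G (r + (v : ZMod N)))]
  symm
  refine sum_subset ?_ ?_
  · intro v hv
    exact mem_range.2 (lt_of_lt_of_le (mem_range.1 hv) (Nat.div_mul_le_self N X))
  · intro v hv hv'
    refine hG v (mem_range.1 hv) ?_
    rw [mem_range, not_lt] at hv'
    exact (Nat.le_div_iff_mul_le hX).2 hv'

/-- average of a nonnegative function of the block -/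
theorem dla_expect_blk_le (X : ℕ) (hX : 1 ≤ X) (r : ZMod N) (p : ℕ → ℝ) (hp : ∀ j, 0 ≤ p j)
    (hp0 : ∀ j, N / X ≤ j → p j = 0) :
    𝔼 x : ZMod N, p ((x - r).val / X) ≤ 𝔼 j ∈ range (N / X), p j := by
  have hN : (0 : ℝ) < N := by exact_mod_cast Nat.pos_of_ne_zero (NeZero.ne N)
  rw [Fintype.expect_eq_sum_div_card, ZMod.card, expect_eq_sum_div_card, card_range]
  have h1 : ∑ x : ZMod N, p ((x - r).val / X) = ∑ j ∈ range (N / X), X * p j := by
    rw [dla_sum_blocks X hX r (fun x => p ((x - r).val / X))]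
    · refine sum_congr rfl (fun j hj => ?_)
      rw [sum_congr rfl (g := fun _ => p j)]
      · simp
      · intro t ht
        have hlt : j * X + t < N := by
          have h2 : (j + 1) * X ≤ N :=
            (Nat.mul_le_mul_right X (mem_range.1 hj)).trans (Nat.div_mul_le_self N X)
          have h3 := mem_range.1 ht
          calc j * X + t < j * X + X := by omega
            _ = (j + 1) * X := by ring
            _ ≤ N := h2
        rw [dla_val hlt, dla_blk hX j t (mem_range.1 ht)]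
    · intro v hv hvX
      rw [dla_val hv]
      exact hp0 _ hvX
  rw [h1, ← mul_sum]
  have h0 : 0 ≤ ∑ j ∈ range (N / X), p j := sum_nonneg (fun j _ => hp j)
  rcases Nat.eq_zero_or_pos (N / X) with hz | hz
  · rw [hz]; simp
  · have hJ : (0 : ℝ) < ((N / X : ℕ) : ℝ) := by exact_mod_cast hz
    rw [div_le_div_iff₀ hN hJ]
    have h2 : (X : ℝ) * ((N / X : ℕ) : ℝ) ≤ N := by
      have := Nat.div_mul_le_self N X
      rw [mul_comm] at this
      exact_mod_cast this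
    calc (X : ℝ) * (∑ j ∈ range (N / X), p j) * ((N / X : ℕ) : ℝ)
        = (∑ j ∈ range (N / X), p j) * ((X : ℝ) * ((N / X : ℕ) : ℝ)) := by ring
      _ ≤ (∑ j ∈ range (N / X), p j) * N := mul_le_mul_of_nonneg_left h2 h0

/-- correlation with a block phase -/
theorem dla_block_corr (X : ℕ) (hX : 1 ≤ X) (hXN : X ≤ N) (r : ZMod N) (v : ZMod N → ℂ)
    (c : ℕ → ℂ) (θ : ℕ → ℝ) (hc : ∀ j, N / X ≤ j → c j = 0) :
    𝔼 x, v x * bphase X r c (fun j => -θ j) x =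
      (((X : ℝ) * ((N / X : ℕ) : ℝ) / N : ℝ) : ℂ) * 𝔼 j ∈ range (N / X),
        (c j * e (-(θ j * ((j * X : ℕ) : ℝ)))) *
          𝔼 t ∈ range X, v (r + ((j * X + t : ℕ) : ZMod N)) * e (-(θ j * t)) := by
  have hN : (N : ℂ) ≠ 0 := by exact_mod_cast NeZero.ne N
  have hX0 : (X : ℂ) ≠ 0 := by
    have : X ≠ 0 := by omega
    exact_mod_cast this
  have hJ0 : ((N / X : ℕ) : ℂ) ≠ 0 := by
    have : 0 < N / X := Nat.div_pos hXN hX
    exact_mod_cast this.ne'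
  rw [Fintype.expect_eq_sum_div_card, ZMod.card, expect_eq_sum_div_card, card_range]
  have h1 : ∑ x : ZMod N, v x * bphase X r c (fun j => -θ j) x =
      ∑ j ∈ range (N / X), ∑ t ∈ range X, (c j * e (-(θ j * ((j * X : ℕ) : ℝ)))) *
        (v (r + ((j * X + t : ℕ) : ZMod N)) * e (-(θ j * t))) := by
    rw [dla_sum_blocks X hX r (fun x => v x * bphase X r c (fun j => -θ j) x)]
    · refine sum_congr rfl (fun j hj => sum_congr rfl (fun t ht => ?_))
      have hlt : j * X + t < N := by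
        have h2 : (j + 1) * X ≤ N :=
          (Nat.mul_le_mul_right X (mem_range.1 hj)).trans (Nat.div_mul_le_self N X)
        have h3 := mem_range.1 ht
        calc j * X + t < j * X + X := by omega
          _ = (j + 1) * X := by ring
          _ ≤ N := h2
      unfold bphase
      rw [dla_val hlt, dla_blk hX j t (mem_range.1 ht)]
      have : e (-θ j * ((j * X + t : ℕ) : ℝ)) =
          e (-(θ j * ((j * X : ℕ) : ℝ))) * e (-(θ j * t)) := by
        rw [← e_add]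
        congr 1
        push_cast
        ring
      rw [this]
      ring
    · intro w hw hwX
      unfold bphase
      rw [dla_val hw, hc _ hwX]
      ring
  rw [h1]
  have h2 : ∀ j ∈ range (N / X), (c j * e (-(θ j * ((j * X : ℕ) : ℝ)))) *
      𝔼 t ∈ range X, v (r + ((j * X + t : ℕ) : ZMod N)) * e (-(θ j * t)) =
      (∑ t ∈ range X, (c j * e (-(θ j * ((j * X : ℕ) : ℝ)))) *
        (v (r + ((j * X + t : ℕ) : ZMod N)) * e (-(θ j * t)))) / X := by
    intro j _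
    rw [expect_eq_sum_div_card, card_range, ← mul_sum]
    ring
  rw [sum_congr rfl h2, ← sum_div]
  generalize (∑ j ∈ range (N / X), ∑ t ∈ range X, c j * e (-(θ j * ((j * X : ℕ) : ℝ))) *
        (v (r + ((j * X + t : ℕ) : ZMod N)) * e (-(θ j * t)))) = T
  push_cast
  field_simp

end dla_basic

/-! ### cubes of block phases -/

section dla_cube
variable {N : ℕ} {k : ℕ}

theorem dla_cjj_e (ω : Fin k → Bool) (t : ℝ) : cjj ω (e t) = e (sg ω * t) := by
  unfold cjj sg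
  split_ifs
  · rw [one_mul]
  · rw [← e_neg, neg_one_mul]

theorem dla_norm_cjj (ω : Fin k → Bool) (z : ℂ) : ‖cjj ω z‖ = ‖z‖ := by
  unfold cjj
  split_ifs
  · rfl
  · exact RCLike.norm_conj z

theorem dla_cjj_ne_zero (ω : Fin k → Bool) (z : ℂ) (h : cjj ω z ≠ 0) : z ≠ 0 := by
  intro hz
  apply h
  rw [hz]
  unfold cjj
  split_ifs <;> simp

theorem dla_abs_sg (ω : Fin k → Bool) : |sg ω| = 1 := by
  unfold sg
  split_ifs <;> simp

theorem dla_prod_e {ι : Type} (s : Finset ι) (t : ι → ℝ) : ∏ i ∈ s, e (t i) = e (∑ i ∈ s, t i) := by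
  classical
  induction s using Finset.induction_on with
  | empty => rw [prod_empty, sum_empty, e_zero]
  | insert i s hi ih => rw [prod_insert hi, sum_insert hi, ih, e_add]

/-- product of block phases over the cube -/
theorem dla_prod_bphase (X : ℕ) (r x : ZMod N) (c : (Fin k → Bool) → ℕ → ℂ)
    (φ : (Fin k → Bool) → ℕ → ℝ) :
    ∏ ω, cjj ω (bphase X r (c ω) (φ ω) x) =
      bphase X r (fun j => ∏ ω, cjj ω (c ω j)) (fun j => ∑ ω, sg ω * φ ω j) x := by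
  unfold bphase
  simp only [cjj_mul, dla_cjj_e]
  rw [prod_mul_distrib, dla_prod_e]
  congr 2
  rw [sum_mul]
  exact sum_congr rfl (fun ω _ => by ring)

/-- conjugate and translate of a block phase -/
theorem dla_bphase_conj (X : ℕ) (r y x : ZMod N) (c : ℕ → ℂ) (φ : ℕ → ℝ) :
    conj (bphase X r c φ (x - y)) = bphase X (r + y) (fun j => conj (c j)) (fun j => -φ j) x := by
  unfold bphase
  rw [map_mul, show x - y - r = x - (r + y) by ring, ← e_neg]
  congr 2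
  ring

theorem dla_norm_bphase (X : ℕ) (r x : ZMod N) (c : ℕ → ℂ) (φ : ℕ → ℝ) :
    ‖bphase X r c φ x‖ = ‖c ((x - r).val / X)‖ := by
  unfold bphase
  rw [norm_mul, norm_e, mul_one]

theorem dla_psi (θ : (Fin k → ℕ) → (Fin k → ℕ) → ℕ → ℝ) (a' a b : Fin k → ℕ) (j : ℕ) :
    ∑ ω, sg ω * (-θ (sel ω a a') b j) = -(θ a b j - psiSum θ a' a b j) := by
  unfold psiSum
  rw [← Finset.add_sum_erase univ _ (mem_univ (fun _ : Fin k => false))]
  have h1 : sg (fun _ : Fin k => false) = 1 := by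
    unfold sg
    simp
  have h2 : sel (fun _ : Fin k => false) a a' = a := by
    funext i
    simp [sel]
  rw [h1, h2]
  simp only [mul_neg, sum_neg_distrib, one_mul]
  ring

theorem dla_sel_mem {X : ℕ} {a a' : Fin k → ℕ} (ha : a ∈ boxset k X) (ha' : a' ∈ boxset k X)
    (ω : Fin k → Bool) : sel ω a a' ∈ boxset k X := by
  unfold boxset at *
  rw [Fintype.mem_piFinset] at *
  intro i
  unfold sel
  split_ifs
  · exact ha' i
  · exact ha i

end dla_cube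

/-! ### the steps -/

section dla_steps
variable {N : ℕ} [NeZero N] {k : ℕ}

theorem dla_freq {v : ZMod N → ℂ} (hv : ∀ x, ‖v x‖ ≤ 1) {B Y : ℝ} (hTV : TV B Y v) (hY : 1 ≤ Y)
    (X : ℕ) (hYX : Y ≤ X) (x : ZMod N) (θ β : ℝ) (hβ : 0 < β) (hθ : |θ| ≤ 1 / 2)
    (h : β / 16 ≤ ‖𝔼 t ∈ range X, v (x + (t : ZMod N)) * e (-(θ * t))‖) :
    |θ| ≤ 8 * (1 + B) / (β * Y) := by
  have hB : 0 ≤ B := hTV.nonneg
  have hY0 : 0 < Y := by linarith
  have hX0 : (0 : ℝ) < X := by linarith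
  have hX1 : 1 ≤ X := by
    have : (0 : ℝ) < (X : ℝ) := hX0
    have h2 : 0 < X := by exact_mod_cast this
    exact h2
  rcases eq_or_ne θ 0 with rfl | hne
  · rw [abs_zero]
    positivity
  have h0 : 0 < |θ| := abs_pos.2 hne
  have h1 := freq_bound hv x X hX1 θ h0 hθ
  have h2 := hTV x X
  have h3 : β / 16 ≤ (2 + B * (X / Y + 1)) / (4 * |θ| * X) := by
    refine h.trans (h1.trans ?_)
    exact div_le_div_of_nonneg_right (by linarith) (by positivity)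
  rw [le_div_iff₀ (by positivity)] at h3
  rw [le_div_iff₀ (by positivity)]
  have h4 : 1 ≤ (X : ℝ) / Y := by rw [le_div_iff₀ hY0]; linarith
  have h5 : β / 16 * (4 * |θ| * X) ≤ (2 + 2 * B) * (X / Y) := by
    refine h3.trans ?_
    nlinarith
  have h6 : β / 16 * (4 * |θ| * X) * Y ≤ (2 + 2 * B) * X := by
    calc β / 16 * (4 * |θ| * X) * Y ≤ (2 + 2 * B) * (X / Y) * Y :=
          mul_le_mul_of_nonneg_right h5 hY0.le
      _ = (2 + 2 * B) * X := by field_simp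
  have h7 : (|θ| * (β * Y)) * X ≤ (8 * (1 + B)) * X := by nlinarith
  exact le_of_mul_le_mul_right h7 hX0

theorem dla_expect_sum {ι : Type} (s : Finset ι) (κ : ZMod N → ℂ) (f : ι → ZMod N → ℂ) :
    𝔼 i ∈ s, ∑ y, κ y * f i y = ∑ y, κ y * 𝔼 i ∈ s, f i y := by
  rw [expect_sum_comm]
  exact sum_congr rfl (fun y _ => (mul_expect _ _ _).symm)

theorem dla_exists_y {ι : Type} {Ω : Finset ι} {F : ι → ZMod N → ℂ} {κ u : ZMod N → ℂ}
    (D : DLData Ω F κ u) (X' : ℕ) (R : (Fin k → ℕ) → (Fin k → ℕ) → ZMod N → ℂ) (δ₁ : ℝ)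
    (h : δ₁ ≤ ‖𝔼 a ∈ boxset k X', 𝔼 b ∈ boxset k X', 𝔼 x : ZMod N,
      u (x + (tot a : ZMod N)) * R a b x‖) :
    ∃ y : ZMod N, δ₁ ≤ ‖𝔼 a ∈ boxset k X', 𝔼 b ∈ boxset k X', 𝔼 x : ZMod N,
      conj (𝔼 n ∈ Ω, F n (x + (tot a : ZMod N) + y)) * R a b x‖ := by
  have h1 : 𝔼 a ∈ boxset k X', 𝔼 b ∈ boxset k X', 𝔼 x : ZMod N,
      u (x + (tot a : ZMod N)) * R a b x = ∑ y, κ y * 𝔼 a ∈ boxset k X', 𝔼 b ∈ boxset k X',
        𝔼 x : ZMod N, conj (𝔼 n ∈ Ω, F n (x + (tot a : ZMod N) + y)) * R a b x := by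
    simp only [← dla_expect_sum]
    refine expect_congr rfl (fun a _ => expect_congr rfl (fun b _ => expect_congr rfl
      (fun x _ => ?_)))
    rw [D.rep, sum_mul]
    exact sum_congr rfl (fun y _ => by ring)
  rw [h1] at h
  obtain ⟨y, _, hy⟩ := (univ : Finset (ZMod N)).exists_max_image
    (fun y => ‖𝔼 a ∈ boxset k X', 𝔼 b ∈ boxset k X', 𝔼 x : ZMod N,
      conj (𝔼 n ∈ Ω, F n (x + (tot a : ZMod N) + y)) * R a b x‖) univ_nonempty
  refine ⟨y, h.trans ((norm_sum_le _ _).trans ?_)⟩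
  have h2 : ∀ z ∈ (univ : Finset (ZMod N)), ‖κ z * 𝔼 a ∈ boxset k X', 𝔼 b ∈ boxset k X',
      𝔼 x : ZMod N, conj (𝔼 n ∈ Ω, F n (x + (tot a : ZMod N) + z)) * R a b x‖ ≤
      ‖κ z‖ * ‖𝔼 a ∈ boxset k X', 𝔼 b ∈ boxset k X', 𝔼 x : ZMod N,
      conj (𝔼 n ∈ Ω, F n (x + (tot a : ZMod N) + y)) * R a b x‖ := by
    intro z hz
    rw [norm_mul]
    exact mul_le_mul_of_nonneg_left (hy z hz) (norm_nonneg _)
  refine (sum_le_sum h2).trans ?_
  rw [← sum_mul]
  exact mul_le_of_le_one_left (norm_nonneg _) D.κ1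

theorem dla_comm4 {α₁ α₂ α₃ α₄ : Type} (s₁ : Finset α₁) (s₂ : Finset α₂) (s₃ : Finset α₃)
    (s₄ : Finset α₄) (f : α₁ → α₂ → α₃ → α₄ → ℂ) :
    𝔼 n ∈ s₁, 𝔼 x ∈ s₂, 𝔼 b ∈ s₃, 𝔼 c ∈ s₄, f n x b c =
      𝔼 c ∈ s₄, 𝔼 b ∈ s₃, 𝔼 n ∈ s₁, 𝔼 x ∈ s₂, f n x b c := by
  have h1 : ∀ n ∈ s₁, 𝔼 x ∈ s₂, 𝔼 b ∈ s₃, 𝔼 c ∈ s₄, f n x b c =
      𝔼 q ∈ s₃ ×ˢ s₄, 𝔼 x ∈ s₂, f n x q.1 q.2 := by
    intro n _
    rw [expect_comm (s := s₃ ×ˢ s₄) (t := s₂) (f := fun q x => f n x q.1 q.2)]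
    refine expect_congr rfl (fun x _ => ?_)
    rw [expect_product]
  have h2 : 𝔼 c ∈ s₄, 𝔼 b ∈ s₃, 𝔼 n ∈ s₁, 𝔼 x ∈ s₂, f n x b c =
      𝔼 q ∈ s₃ ×ˢ s₄, 𝔼 n ∈ s₁, 𝔼 x ∈ s₂, f n x q.1 q.2 := by
    rw [expect_comm (s := s₄) (t := s₃), expect_product]
  rw [expect_congr rfl h1, h2]
  exact expect_comm _ _ _

/-- the part of the cube which does not see some coordinate of `a` -/
def dla_rest (u : ZMod N → ℂ) (a b : Fin k → ℕ) (x : ZMod N) : ℂ :=
  ∏ ω ∈ univ.erase (fun _ : Fin k => false), cjj ω (u (x + (tot (sel ω a b) : ZMod N)))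

theorem dla_cube_eq (u : ZMod N → ℂ) (a b : Fin k → ℕ) (x : ZMod N) :
    cube u a b x = u (x + (tot a : ZMod N)) * dla_rest u a b x := by
  unfold cube dla_rest
  rw [← Finset.mul_prod_erase univ _ (mem_univ (fun _ : Fin k => false))]
  congr 1
  have h2 : sel (fun _ : Fin k => false) a b = a := by
    funext i
    simp [sel]
  rw [h2]
  unfold cjj
  simp

/-- a coordinate where `ω` is true -/
def dla_idx (hk : 1 ≤ k) (ω : Fin k → Bool) : Fin k := by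
  classical
  exact if h : ∃ i, ω i = true then h.choose else ⟨0, hk⟩

theorem dla_idx_spec (hk : 1 ≤ k) (ω : Fin k → Bool) (h : ω ≠ fun _ => false) :
    ω (dla_idx hk ω) = true := by
  have h2 : ∃ i, ω i = true := by
    by_contra hcon
    push Not at hcon
    apply h
    funext i
    have := hcon i
    simpa using this
  unfold dla_idx
  rw [dif_pos h2]
  exact h2.choose_spec

/-- the factor number `j` -/
def dla_B (hk : 1 ≤ k) (u : ZMod N → ℂ) (b : Fin k → ℕ) (x : ZMod N) (j : Fin k)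
    (a : Fin k → ℕ) : ℂ :=
  ∏ ω ∈ (univ.erase (fun _ : Fin k => false)).filter (fun ω => dla_idx hk ω = j),
    cjj ω (u (x + (tot (sel ω a b) : ZMod N)))

theorem dla_rest_eq (hk : 1 ≤ k) (u : ZMod N → ℂ) (a b : Fin k → ℕ) (x : ZMod N) :
    dla_rest u a b x = ∏ j, dla_B hk u b x j a := by
  unfold dla_rest dla_B
  exact (Finset.prod_fiberwise _ _ _).symm

theorem dla_norm_prod_le {ι : Type} (s : Finset ι) (f : ι → ℂ) (h : ∀ i ∈ s, ‖f i‖ ≤ 1) :
    ‖∏ i ∈ s, f i‖ ≤ 1 := by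
  rw [norm_prod]
  exact Finset.prod_le_one (fun i _ => norm_nonneg _) h

theorem dla_B_norm (hk : 1 ≤ k) {u : ZMod N → ℂ} (hu : ∀ x, ‖u x‖ ≤ 1) (b : Fin k → ℕ)
    (x : ZMod N) (j : Fin k) (a : Fin k → ℕ) : ‖dla_B hk u b x j a‖ ≤ 1 := by
  unfold dla_B
  refine dla_norm_prod_le _ _ (fun ω _ => ?_)
  rw [dla_norm_cjj]
  exact hu _

theorem dla_B_indep (hk : 1 ≤ k) (u : ZMod N → ℂ) (b : Fin k → ℕ) (x : ZMod N) (j : Fin k)
    (a a' : Fin k → ℕ) (h : ∀ i, i ≠ j → a i = a' i) :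
    dla_B hk u b x j a = dla_B hk u b x j a' := by
  unfold dla_B
  refine prod_congr rfl (fun ω hω => ?_)
  rw [mem_filter, mem_erase] at hω
  have h1 := dla_idx_spec hk ω hω.1.1
  rw [hω.2] at h1
  have h2 : sel ω a b = sel ω a' b := by
    funext i
    unfold sel
    by_cases hi : i = j
    · rw [hi, h1]
      simp
    · rw [h i hi]
  rw [h2]

theorem dla_prod_conj (F : ZMod N → ℂ) (g : (Fin k → ℕ) → ZMod N → ℂ) (a a' : Fin k → ℕ)
    (x y : ZMod N) :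
    ∏ ω : Fin k → Bool, cjj ω (conj (F (x + (tot (sel ω a a') : ZMod N) + y)) *
      g (sel ω a a') x) = conj (cube F a a' (x + y)) * ∏ ω, cjj ω (g (sel ω a a') x) := by
  unfold cube
  rw [map_prod, ← prod_mul_distrib]
  refine prod_congr rfl (fun ω _ => ?_)
  rw [cjj_mul, cjj_conj]
  congr 4
  ring

theorem dla_gcs_step (hk : 1 ≤ k) {ι : Type} {Ω : Finset ι} {F : ι → ZMod N → ℂ}
    {κ u : ZMod N → ℂ} (D : DLData Ω F κ u) (hu : ∀ x, ‖u x‖ ≤ 1) (X' : ℕ) (hX' : 1 ≤ X')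
    (g : (Fin k → ℕ) → (Fin k → ℕ) → ZMod N → ℂ) (δ₁ : ℝ) (hδ : 0 ≤ δ₁)
    (h : δ₁ ≤ ‖𝔼 a ∈ boxset k X', 𝔼 b ∈ boxset k X', 𝔼 x : ZMod N,
      cube u a b x * g a b x‖) :
    ∃ y : ZMod N, δ₁ ^ (2 ^ k) ≤
      (𝔼 c ∈ boxset k X' ×ˢ boxset k X', 𝔼 b ∈ boxset k X', 𝔼 n ∈ Ω, 𝔼 x : ZMod N,
        conj (cube (F n) c.1 c.2 (x + y)) * ∏ ω, cjj ω (g (sel ω c.1 c.2) b x)).re := by
  have hne : ∀ _i : Fin k, (range X').Nonempty := fun _ => ⟨0, mem_range.2 (by omega)⟩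
  have h0 : δ₁ ≤ ‖𝔼 a ∈ boxset k X', 𝔼 b ∈ boxset k X', 𝔼 x : ZMod N,
      u (x + (tot a : ZMod N)) * (dla_rest u a b x * g a b x)‖ := by
    refine h.trans (le_of_eq (congrArg norm ?_))
    refine expect_congr rfl (fun a _ => expect_congr rfl (fun b _ => expect_congr rfl
      (fun x _ => ?_)))
    rw [dla_cube_eq, mul_assoc]
  obtain ⟨y, hy⟩ := dla_exists_y D X' _ δ₁ h0
  refine ⟨y, ?_⟩
  -- rearrange
  have h1 : 𝔼 a ∈ boxset k X', 𝔼 b ∈ boxset k X', 𝔼 x : ZMod N,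
      conj (𝔼 n ∈ Ω, F n (x + (tot a : ZMod N) + y)) * (dla_rest u a b x * g a b x) =
      𝔼 n ∈ Ω, 𝔼 x : ZMod N, 𝔼 b ∈ boxset k X', 𝔼 a ∈ boxset k X',
        (conj (F n (x + (tot a : ZMod N) + y)) * g a b x) * ∏ j, dla_B hk u b x j a := by
    rw [dla_comm4]
    refine expect_congr rfl (fun a _ => expect_congr rfl (fun b _ => ?_))
    rw [expect_comm]
    refine expect_congr rfl (fun x _ => ?_)
    rw [gcs_conj_expect, expect_mul]
    refine expect_congr rfl (fun n _ => ?_)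
    rw [dla_rest_eq hk]
    ring
  rw [h1] at hy
  have h2 : δ₁ ≤ 𝔼 n ∈ Ω, 𝔼 x : ZMod N, 𝔼 b ∈ boxset k X', ‖𝔼 a ∈ boxset k X',
        (conj (F n (x + (tot a : ZMod N) + y)) * g a b x) * ∏ j, dla_B hk u b x j a‖ := by
    refine hy.trans ((dla_norm_expect_le _ _).trans (expect_le_expect (fun n _ => ?_)))
    refine (dla_norm_expect_le _ _).trans (expect_le_expect (fun x _ => ?_))
    exact dla_norm_expect_le _ _
  have h3 : δ₁ ^ (2 ^ k) ≤ 𝔼 n ∈ Ω, 𝔼 x : ZMod N, 𝔼 b ∈ boxset k X', ‖𝔼 a ∈ boxset k X',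
        (conj (F n (x + (tot a : ZMod N) + y)) * g a b x) *
          ∏ j, dla_B hk u b x j a‖ ^ (2 ^ k) := by
    refine (pow_le_pow_left₀ hδ h2 _).trans ?_
    refine (gcs_pow_expect_le _ k _ (fun n _ => expect_nonneg (fun x _ => expect_nonneg
      (fun b _ => norm_nonneg _)))).trans (expect_le_expect (fun n _ => ?_))
    refine (gcs_pow_expect_le _ k _ (fun x _ => expect_nonneg
      (fun b _ => norm_nonneg _))).trans (expect_le_expect (fun x _ => ?_))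
    exact gcs_pow_expect_le _ k _ (fun b _ => norm_nonneg _)
  refine h3.trans ?_
  have h4 : ∀ n ∈ Ω, ∀ x : ZMod N, ∀ b ∈ boxset k X', ‖𝔼 a ∈ boxset k X',
        (conj (F n (x + (tot a : ZMod N) + y)) * g a b x) *
          ∏ j, dla_B hk u b x j a‖ ^ (2 ^ k) ≤
      (𝔼 c ∈ boxset k X' ×ˢ boxset k X',
        conj (cube (F n) c.1 c.2 (x + y)) * ∏ ω, cjj ω (g (sel ω c.1 c.2) b x)).re := by
    intro n _ x b _
    refine (gcs hk (fun _ => range X') hne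
      (fun a => conj (F n (x + (tot a : ZMod N) + y)) * g a b x)
      (fun j a => dla_B hk u b x j a) (fun j a => dla_B_norm hk hu b x j a)
      (fun j a a' haa => dla_B_indep hk u b x j a a' haa)).trans (le_of_eq ?_)
    congr 1
    rw [expect_product]
    refine expect_congr rfl (fun a _ => expect_congr rfl (fun a' _ => ?_))
    exact dla_prod_conj (F n) (fun a x => g a b x) a a' x y
  refine (expect_le_expect (fun n hn => expect_le_expect (fun x _ => expect_le_expect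
    (fun b hb => h4 n hn x b hb)))).trans (le_of_eq ?_)
  rw [← dla_comm4 Ω univ (boxset k X') (boxset k X' ×ˢ boxset k X')]
  rw [gcs_re_expect]
  refine expect_congr rfl (fun n _ => ?_)
  rw [gcs_re_expect]
  refine expect_congr rfl (fun x _ => ?_)
  rw [gcs_re_expect]

/-- big frequencies give a small form, small ones are counted -/
theorem dla_split {ι : Type} {Ω : Finset ι} {F : ι → ZMod N → ℂ}
    {κ u : ZMod N → ℂ} (D : DLData Ω F κ u) (X X' : ℕ) (hX : 1 ≤ X) {U V η : ℝ}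
    (hLP : LPh Ω F k X' X U V η) (a a' : Fin k → ℕ) (ha : a ∈ boxset k X')
    (ha' : a' ∈ boxset k X') (r y : ZMod N) (C : ℕ → ℂ) (Φ : ℕ → ℝ)
    (hC : ∀ j, ‖C j‖ ≤ 1) (hC0 : ∀ j, N / X ≤ j → C j = 0) (hΦ : ∀ j, |Φ j| ≤ U) :
    ‖𝔼 n ∈ Ω, 𝔼 x : ZMod N, conj (cube (F n) a a' (x + y)) * bphase X r C Φ x‖ ≤
      (𝔼 j ∈ range (N / X), if C j ≠ 0 ∧ |Φ j| < V then (1 : ℝ) else 0) + η := by
  classical
  set C1 : ℕ → ℂ := fun j => if V ≤ |Φ j| then C j else 0 with hC1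
  set C2 : ℕ → ℂ := fun j => if V ≤ |Φ j| then 0 else C j with hC2
  have hsum : ∀ x, bphase X r C Φ x = bphase X r C2 Φ x + bphase X r C1 Φ x := by
    intro x
    unfold bphase
    rw [← add_mul, hC1, hC2]
    congr 1
    dsimp only
    split_ifs <;> simp
  have hsplit : 𝔼 n ∈ Ω, 𝔼 x : ZMod N, conj (cube (F n) a a' (x + y)) * bphase X r C Φ x =
      (𝔼 n ∈ Ω, 𝔼 x : ZMod N, conj (cube (F n) a a' (x + y)) * bphase X r C2 Φ x) +
      𝔼 n ∈ Ω, 𝔼 x : ZMod N, conj (cube (F n) a a' (x + y)) * bphase X r C1 Φ x := by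
    rw [← expect_add_distrib]
    refine expect_congr rfl (fun n _ => ?_)
    rw [← expect_add_distrib]
    refine expect_congr rfl (fun x _ => ?_)
    rw [hsum x]
    ring
  rw [hsplit]
  refine (norm_add_le _ _).trans (add_le_add ?_ ?_)
  · refine (dla_norm_expect_le_const _ _ _ ?_ (fun n _ => ?_))
    · refine expect_nonneg (fun j _ => ?_)
      split_ifs <;> norm_num
    · refine (dla_norm_expect_le _ _).trans ?_
      have h1 := dla_expect_blk_le X hX r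
        (fun j => if C j ≠ 0 ∧ |Φ j| < V then (1 : ℝ) else 0)
        (fun j => by split_ifs <;> norm_num)
        (fun j hj => by
          rw [if_neg]
          intro h
          exact h.1 (hC0 j hj))
      refine le_trans (expect_le_expect (fun x _ => ?_)) h1
      rw [norm_mul, dla_norm_bphase, RCLike.norm_conj]
      have h2 : ‖cube (F n) a a' (x + y)‖ ≤ 1 := norm_cube_le k (D.F1 n) a a' _
      have h3 : ‖C2 ((x - r).val / X)‖ ≤
          if C ((x - r).val / X) ≠ 0 ∧ |Φ ((x - r).val / X)| < V then (1 : ℝ) else 0 := by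
        rw [hC2]
        dsimp only
        by_cases hV : V ≤ |Φ ((x - r).val / X)|
        · rw [if_pos hV, norm_zero]
          split_ifs <;> norm_num
        · rw [if_neg hV]
          push Not at hV
          by_cases hz : C ((x - r).val / X) = 0
          · rw [hz, norm_zero]
            split_ifs <;> norm_num
          · rw [if_pos ⟨hz, hV⟩]
            exact hC _
      calc ‖cube (F n) a a' (x + y)‖ * ‖C2 ((x - r).val / X)‖
          ≤ 1 * ‖C2 ((x - r).val / X)‖ := mul_le_mul_of_nonneg_right h2 (norm_nonneg _)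
        _ = ‖C2 ((x - r).val / X)‖ := one_mul _
        _ ≤ _ := h3
  · have h1 : conj (𝔼 n ∈ Ω, 𝔼 x : ZMod N, conj (cube (F n) a a' (x + y)) *
        bphase X r C1 Φ x) = 𝔼 n ∈ Ω, 𝔼 x : ZMod N, cube (F n) a a' x *
          bphase X (r + y) (fun j => conj (C1 j)) (fun j => -Φ j) x := by
      rw [gcs_conj_expect]
      refine expect_congr rfl (fun n _ => ?_)
      rw [gcs_conj_expect, ← expect_shift_sub5 _ y]
      refine expect_congr rfl (fun x _ => ?_)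
      rw [map_mul, Complex.conj_conj, dla_bphase_conj, sub_add_cancel]
    have h2 := hLP a ha a' ha' (r + y) (fun j => conj (C1 j)) (fun j => -Φ j)
      (fun j => by
        rw [RCLike.norm_conj, hC1]
        dsimp only
        split_ifs
        · exact hC j
        · simp)
      (fun j => by rw [abs_neg]; exact hΦ j)
      (fun j hj => by
        rw [abs_neg]
        by_contra hcon
        apply hj
        rw [hC1]
        dsimp only
        rw [if_neg hcon, map_zero])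
    rw [← h1, RCLike.norm_conj] at h2
    exact h2.le

/-- the local average on block `j` -/
def dla_S (X : ℕ) (r : ZMod N) (v : ZMod N → ℂ) (θ : ℕ → ℝ) (j : ℕ) : ℂ :=
  𝔼 t ∈ range X, v (r + ((j * X + t : ℕ) : ZMod N)) * e (-(θ j * t))

/-- the good blocks -/
def dla_good (X : ℕ) (r : ZMod N) (v : ZMod N → ℂ) (θ : ℕ → ℝ) (β : ℝ) (j : ℕ) : Prop :=
  j < N / X ∧ β / 16 ≤ ‖dla_S X r v θ j‖

open Classical in
/-- the frequency, on the good blocks -/
def dla_th (X : ℕ) (r : ZMod N) (v : ZMod N → ℂ) (θ : ℕ → ℝ) (β : ℝ) (j : ℕ) : ℝ :=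
  if dla_good X r v θ β j then θ j else 0

open Classical in
/-- the coefficient, on the good blocks -/
def dla_cc (X : ℕ) (r : ZMod N) (v : ZMod N → ℂ) (θ : ℕ → ℝ) (β : ℝ) (j : ℕ) : ℂ :=
  if dla_good X r v θ β j then e (θ j * ((j * X : ℕ) : ℝ)) *
    (conj (dla_S X r v θ j) / (‖dla_S X r v θ j‖ : ℂ)) else 0

theorem dla_cc_norm (X : ℕ) (r : ZMod N) (v : ZMod N → ℂ) (θ : ℕ → ℝ) (β : ℝ) (j : ℕ) :
    ‖dla_cc X r v θ β j‖ ≤ 1 := by
  unfold dla_cc
  split_ifs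
  · rw [norm_mul, norm_e, one_mul, norm_div, RCLike.norm_conj, Complex.norm_real, norm_norm]
    exact div_self_le_one _
  · simp

theorem dla_cc_ne {X : ℕ} {r : ZMod N} {v : ZMod N → ℂ} {θ : ℕ → ℝ} {β : ℝ} {j : ℕ}
    (h : dla_cc X r v θ β j ≠ 0) : dla_good X r v θ β j := by
  by_contra hcon
  apply h
  unfold dla_cc
  rw [if_neg hcon]

theorem dla_cc_out (X : ℕ) (r : ZMod N) (v : ZMod N → ℂ) (θ : ℕ → ℝ) (β : ℝ) (j : ℕ)
    (hj : N / X ≤ j) : dla_cc X r v θ β j = 0 := by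
  by_contra hcon
  exact absurd (dla_cc_ne hcon).1 (not_lt.2 hj)

theorem dla_S_good {X : ℕ} {r : ZMod N} {v : ZMod N → ℂ} {θ : ℕ → ℝ} {β : ℝ} {j : ℕ}
    (h : dla_good X r v θ β j) : dla_S X r v (dla_th X r v θ β) j = dla_S X r v θ j := by
  unfold dla_S
  have : dla_th X r v θ β j = θ j := by
    unfold dla_th
    rw [if_pos h]
  rw [this]

open Classical in
theorem dla_corr_g (X : ℕ) (hX : 1 ≤ X) (hXN : X ≤ N) (r : ZMod N) (v : ZMod N → ℂ)
    (θ : ℕ → ℝ) (β : ℝ) (hβ : 0 < β) :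
    𝔼 x, v x * bphase X r (dla_cc X r v θ β) (fun j => -dla_th X r v θ β j) x =
      (((X : ℝ) * ((N / X : ℕ) : ℝ) / N * 𝔼 j ∈ range (N / X),
        (if dla_good X r v θ β j then ‖dla_S X r v θ j‖ else 0) : ℝ) : ℂ) := by
  rw [dla_block_corr X hX hXN r v _ _ (dla_cc_out X r v θ β), Complex.ofReal_mul]
  congr 1
  have h1 : ((𝔼 j ∈ range (N / X), (if dla_good X r v θ β j then ‖dla_S X r v θ j‖ else 0) : ℝ)
      : ℂ) = 𝔼 j ∈ range (N / X), (((if dla_good X r v θ β j then ‖dla_S X r v θ j‖ else 0)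
      : ℝ) : ℂ) := map_expect (Complex.ofRealCLM.toLinearMap.restrictScalars ℚ≥0) _ _
  rw [h1]
  refine expect_congr rfl (fun j _ => ?_)
  change _ * dla_S X r v (dla_th X r v θ β) j = _
  by_cases hg : dla_good X r v θ β j
  · rw [dla_S_good hg, if_pos hg]
    have hth : dla_th X r v θ β j = θ j := by
      unfold dla_th
      rw [if_pos hg]
    have hcc : dla_cc X r v θ β j = e (θ j * ((j * X : ℕ) : ℝ)) *
        (conj (dla_S X r v θ j) / (‖dla_S X r v θ j‖ : ℂ)) := by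
      unfold dla_cc
      rw [if_pos hg]
    rw [hth, hcc]
    have he : e (θ j * ((j * X : ℕ) : ℝ)) * e (-(θ j * ((j * X : ℕ) : ℝ))) = 1 := by
      rw [← e_add, add_neg_cancel, e_zero]
    have hS : (0 : ℝ) < ‖dla_S X r v θ j‖ := lt_of_lt_of_le (by positivity) hg.2
    have hS' : ((‖dla_S X r v θ j‖ : ℝ) : ℂ) ≠ 0 := by exact_mod_cast hS.ne'
    have hconj : conj (dla_S X r v θ j) * dla_S X r v θ j =
        ((‖dla_S X r v θ j‖ : ℝ) : ℂ) ^ 2 := by
      rw [mul_comm, Complex.mul_conj, Complex.normSq_eq_norm_sq]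
      push_cast
      rfl
    calc e (θ j * ((j * X : ℕ) : ℝ)) *
          (conj (dla_S X r v θ j) / (‖dla_S X r v θ j‖ : ℂ)) *
          e (-(θ j * ((j * X : ℕ) : ℝ))) * dla_S X r v θ j
        = (e (θ j * ((j * X : ℕ) : ℝ)) * e (-(θ j * ((j * X : ℕ) : ℝ)))) *
          ((conj (dla_S X r v θ j) * dla_S X r v θ j) / (‖dla_S X r v θ j‖ : ℂ)) := by ring
      _ = ((‖dla_S X r v θ j‖ : ℝ) : ℂ) := by
          rw [he, one_mul, hconj]
          field_simp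
  · have hcc : dla_cc X r v θ β j = 0 := by
      unfold dla_cc
      rw [if_neg hg]
    rw [hcc, if_neg hg]
    simp

theorem dla_start {u : ZMod N → ℂ} (hu : ∀ x, ‖u x‖ ≤ 1) {β : ℝ} (X X' : ℕ) (hX' : 1 ≤ X')
    (hX'X : X' ≤ X) (hXN : X ≤ N) (hBox : β ≤ Box (k + 2) X u)
    (h1 : (k : ℝ) * (4 * X' / X) ≤ β / 2) (h2 : 2 * (X : ℝ) / N ≤ β / 4) :
    ∃ (r : ZMod N) (θ : (Fin k → ℕ) × (Fin k → ℕ) → ℕ → ℝ), (∀ i j, |θ i j| ≤ 1 / 2) ∧
      β / 8 ≤ 𝔼 i ∈ boxset k X' ×ˢ boxset k X', 𝔼 j ∈ range (N / X),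
        ‖dla_S X r (cube u i.1 i.2) (θ i) j‖ := by
  have hne : (boxset k X').Nonempty := by
    unfold boxset
    rw [Fintype.piFinset_nonempty]
    exact fun _ => ⟨0, mem_range.2 (by omega)⟩
  obtain ⟨r, θ, hθ, hb⟩ := u2_block (boxset k X' ×ˢ boxset k X') (hne.product hne)
    (fun i => cube u i.1 i.2) (fun i x => norm_cube_le k hu i.1 i.2 x) X (by omega) hXN
  refine ⟨r, θ, hθ, ?_⟩
  have h3 := Box_shorten k X X' hX' hX'X hu
  rw [← expect_product (boxset k X') (boxset k X') (fun i => U2 X (cube u i.1 i.2))] at h3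
  unfold dla_S
  linarith

theorem dla_Phi_bound (θ : (Fin k → Bool) → ℝ) {M : ℝ} (h : ∀ ω, |θ ω| ≤ M) :
    |∑ ω, sg ω * θ ω| ≤ 2 ^ k * M := by
  refine (abs_sum_le_sum_abs _ _).trans ?_
  have h1 : ∑ _ω : Fin k → Bool, M = 2 ^ k * M := by
    rw [sum_const, card_univ, Fintype.card_pi, nsmul_eq_mul]
    simp
  rw [← h1]
  refine sum_le_sum (fun ω _ => ?_)
  rw [abs_mul, dla_abs_sg, one_mul]
  exact h ω

open Classical in
theorem dla_good_avg {α : Type} (Λ : Finset α) (X : ℕ) (r : ZMod N)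
    (v : α → ZMod N → ℂ) (θ : α → ℕ → ℝ) (β : ℝ) (hβ : 0 < β)
    (h : β / 8 ≤ 𝔼 i ∈ Λ, 𝔼 j ∈ range (N / X), ‖dla_S X r (v i) (θ i) j‖) :
    β / 16 ≤ 𝔼 i ∈ Λ, 𝔼 j ∈ range (N / X),
      (if dla_good X r (v i) (θ i) β j then ‖dla_S X r (v i) (θ i) j‖ else 0) := by
  have h1 : 𝔼 i ∈ Λ, 𝔼 j ∈ range (N / X), ‖dla_S X r (v i) (θ i) j‖ ≤
      𝔼 i ∈ Λ, (𝔼 j ∈ range (N / X),
      (if dla_good X r (v i) (θ i) β j then ‖dla_S X r (v i) (θ i) j‖ else 0)) + β / 16 := by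
    have h2 : 𝔼 i ∈ Λ, 𝔼 j ∈ range (N / X), ‖dla_S X r (v i) (θ i) j‖ ≤
      𝔼 i ∈ Λ, ((𝔼 j ∈ range (N / X),
      (if dla_good X r (v i) (θ i) β j then ‖dla_S X r (v i) (θ i) j‖ else 0)) +
        𝔼 _j ∈ range (N / X), β / 16) := by
      refine expect_le_expect (fun i _ => ?_)
      rw [← expect_add_distrib]
      refine expect_le_expect (fun j hj => ?_)
      by_cases hg : dla_good X r (v i) (θ i) β j
      · rw [if_pos hg]
        linarith
      · rw [if_neg hg, zero_add]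
        unfold dla_good at hg
        push Not at hg
        exact (hg (mem_range.1 hj)).le
    refine h2.trans ?_
    rw [expect_add_distrib]
    refine add_le_add le_rfl ?_
    exact dla_expect_le_const _ _ _ (by positivity) (fun i _ =>
      dla_expect_le_const _ _ _ (by positivity) (fun j _ => le_rfl))
  linarith

open Classical in
theorem dla_main (hk : 1 ≤ k) {ι : Type} {Ω : Finset ι} {F : ι → ZMod N → ℂ}
    {κ u : ZMod N → ℂ} (D : DLData Ω F κ u) {B Y β U V η : ℝ} (hA : Adm B Y u)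
    (hY : 1 ≤ Y) (X X' : ℕ) (hYX : Y ≤ X) (hX' : 1 ≤ X') (hX'X : X' ≤ X) (hXN : 2 * X ≤ N)
    (hβ : 0 < β) (hBox : β ≤ Box (k + 2) X u)
    (h1 : (k : ℝ) * (4 * X' / X) ≤ β / 2) (h2 : 2 * (X : ℝ) / N ≤ β / 4)
    (hη : η ≤ (β / 32) ^ (2 ^ k) / 2)
    (hU : 2 ^ k * (8 * (1 + 2 ^ k * B) / (β * Y)) ≤ U) (hLP : LPh Ω F k X' X U V η) :
    ∃ (r : ZMod N) (θ : (Fin k → ℕ) → (Fin k → ℕ) → ℕ → ℝ) (a' : ℕ → Fin k → ℕ),
        (∀ j, a' j ∈ boxset k X') ∧
        (β / 32) ^ (2 ^ k + 1) ≤ 𝔼 j ∈ range (N / X), 𝔼 a ∈ boxset k X', 𝔼 b ∈ boxset k X',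
          (if |θ a b j - psiSum θ (a' j) a b j| ≤ V then
            ‖𝔼 t ∈ range X, cube u a b (r + ((j * X + t : ℕ) : ZMod N)) * e (-(θ a b j * t))‖
          else 0) := by
  have hu := hA.bdd
  have hX1 : 1 ≤ X := hX'.trans hX'X
  have hXN1 : X ≤ N := by omega
  have hne : (boxset k X').Nonempty := by
    unfold boxset
    rw [Fintype.piFinset_nonempty]
    exact fun _ => ⟨0, mem_range.2 (by omega)⟩
  obtain ⟨r, θ0, hθ0, hst⟩ := dla_start hu X X' hX' hX'X hXN1 hBox h1 h2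
  have hgd : β / 16 ≤ 𝔼 i ∈ boxset k X' ×ˢ boxset k X', 𝔼 j ∈ range (N / X),
      (if dla_good X r (cube u i.1 i.2) (θ0 i) β j then
        ‖dla_S X r (cube u i.1 i.2) (θ0 i) j‖ else 0) :=
    dla_good_avg (boxset k X' ×ˢ boxset k X') X r (fun i => cube u i.1 i.2) θ0 β hβ hst
  set θ : (Fin k → ℕ) → (Fin k → ℕ) → ℕ → ℝ :=
    fun a b => dla_th X r (cube u a b) (θ0 (a, b)) β with hθ
  set cc : (Fin k → ℕ) → (Fin k → ℕ) → ℕ → ℂ :=
    fun a b => dla_cc X r (cube u a b) (θ0 (a, b)) β with hcc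
  -- the correlation
  have hcorr : 𝔼 a ∈ boxset k X', 𝔼 b ∈ boxset k X', 𝔼 x : ZMod N,
      cube u a b x * bphase X r (cc a b) (fun j => -θ a b j) x =
      (((X : ℝ) * ((N / X : ℕ) : ℝ) / N * 𝔼 i ∈ boxset k X' ×ˢ boxset k X',
        𝔼 j ∈ range (N / X), (if dla_good X r (cube u i.1 i.2) (θ0 i) β j then
          ‖dla_S X r (cube u i.1 i.2) (θ0 i) j‖ else 0) : ℝ) : ℂ) := by
    have hr : ∀ a ∈ boxset k X', ∀ b ∈ boxset k X', 𝔼 x : ZMod N,
        cube u a b x * bphase X r (cc a b) (fun j => -θ a b j) x = _ := fun a _ b _ =>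
      dla_corr_g X hX1 hXN1 r (cube u a b) (θ0 (a, b)) β hβ
    rw [expect_congr rfl (fun a ha => expect_congr rfl (fun b hb => hr a ha b hb))]
    rw [← expect_product (boxset k X') (boxset k X') (fun i =>
      (((X : ℝ) * ((N / X : ℕ) : ℝ) / N * 𝔼 j ∈ range (N / X),
        (if dla_good X r (cube u i.1 i.2) (θ0 i) β j then
          ‖dla_S X r (cube u i.1 i.2) (θ0 i) j‖ else 0) : ℝ) : ℂ))]
    rw [mul_expect]
    symm
    exact map_expect (Complex.ofRealCLM.toLinearMap.restrictScalars ℚ≥0) _ _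
  have hXJ : (1 : ℝ) / 2 ≤ (X : ℝ) * ((N / X : ℕ) : ℝ) / N := by
    have hN : (0 : ℝ) < N := by exact_mod_cast Nat.pos_of_ne_zero (NeZero.ne N)
    rw [le_div_iff₀ hN]
    have h3 : N < X * (N / X) + X := by
      have h4 := Nat.div_add_mod N X
      have h5 := Nat.mod_lt N (show X > 0 by omega)
      omega
    have h6 : N ≤ 2 * (X * (N / X)) := by omega
    have h7 : (N : ℝ) ≤ 2 * ((X : ℝ) * ((N / X : ℕ) : ℝ)) := by exact_mod_cast h6
    linarith
  have hδ1 : β / 32 ≤ ‖𝔼 a ∈ boxset k X', 𝔼 b ∈ boxset k X', 𝔼 x : ZMod N,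
      cube u a b x * bphase X r (cc a b) (fun j => -θ a b j) x‖ := by
    rw [hcorr, Complex.norm_real, Real.norm_eq_abs]
    refine le_trans ?_ (le_abs_self _)
    calc β / 32 = 1 / 2 * (β / 16) := by ring
      _ ≤ _ := mul_le_mul hXJ hgd (by positivity) (by positivity)
  obtain ⟨y, hy⟩ := dla_gcs_step hk D hu X' hX'
    (fun a b x => bphase X r (cc a b) (fun j => -θ a b j) x) (β / 32) (by positivity) hδ1
  -- the phases of the cube
  set p : (Fin k → ℕ) → (Fin k → ℕ) → (Fin k → ℕ) → ℕ → ℝ := fun a a' b j =>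
    if cc a b j ≠ 0 ∧ |θ a b j - psiSum θ a' a b j| ≤ V then (1 : ℝ) else 0 with hp
  have hθb : ∀ a b j, |θ a b j| ≤ 8 * (1 + 2 ^ k * B) / (β * Y) := by
    intro a b j
    rw [hθ]
    dsimp only
    unfold dla_th
    have hB : 0 ≤ B := hA.tv.nonneg
    split_ifs with hg
    · exact dla_freq (fun x => norm_cube_le k hu a b x) (hA.cub (by linarith) k a b).tv hY X hYX
        _ (θ0 (a, b) j) β hβ (hθ0 _ _) (by
          have h3 := hg.2
          unfold dla_S at h3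
          refine h3.trans (le_of_eq (congrArg norm ?_))
          refine expect_congr rfl (fun t _ => ?_)
          have : r + ((j * X + t : ℕ) : ZMod N) = (r + ((j * X : ℕ) : ZMod N)) + (t : ZMod N) := by
            push_cast
            ring
          rw [this])
    · rw [abs_zero]
      positivity
  have hW : ∀ c ∈ boxset k X' ×ˢ boxset k X', ∀ b ∈ boxset k X',
      (𝔼 n ∈ Ω, 𝔼 x : ZMod N, conj (cube (F n) c.1 c.2 (x + y)) *
        ∏ ω, cjj ω (bphase X r (cc (sel ω c.1 c.2) b)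
          (fun j => -θ (sel ω c.1 c.2) b j) x)).re ≤
        (𝔼 j ∈ range (N / X), p c.1 c.2 b j) + η := by
    intro c hc b _
    rw [mem_product] at hc
    refine (Complex.re_le_norm _).trans ?_
    have h3 := dla_split D X X' hX1 hLP c.1 c.2 hc.1 hc.2 r y
      (fun j => ∏ ω, cjj ω (cc (sel ω c.1 c.2) b j))
      (fun j => ∑ ω, sg ω * (-θ (sel ω c.1 c.2) b j))
      (fun j => dla_norm_prod_le _ _ (fun ω _ => by
        rw [dla_norm_cjj]
        exact dla_cc_norm _ _ _ _ _ _))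
      (fun j hj => prod_eq_zero (mem_univ (fun _ : Fin k => false)) (by
        have h4 : cc (sel (fun _ : Fin k => false) c.1 c.2) b j = 0 :=
          dla_cc_out _ _ _ _ _ _ hj
        rw [h4]
        unfold cjj
        split_ifs <;> simp))
      (fun j => (dla_Phi_bound _ (fun ω => by
        rw [abs_neg]
        exact hθb _ _ _)).trans hU)
    have h5 : 𝔼 n ∈ Ω, 𝔼 x : ZMod N, conj (cube (F n) c.1 c.2 (x + y)) *
        ∏ ω, cjj ω (bphase X r (cc (sel ω c.1 c.2) b)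
          (fun j => -θ (sel ω c.1 c.2) b j) x) =
        𝔼 n ∈ Ω, 𝔼 x : ZMod N, conj (cube (F n) c.1 c.2 (x + y)) *
          bphase X r (fun j => ∏ ω, cjj ω (cc (sel ω c.1 c.2) b j))
          (fun j => ∑ ω, sg ω * (-θ (sel ω c.1 c.2) b j)) x := by
      refine expect_congr rfl (fun n _ => expect_congr rfl (fun x _ => ?_))
      rw [dla_prod_bphase X r x (fun ω => cc (sel ω c.1 c.2) b)
        (fun ω j => -θ (sel ω c.1 c.2) b j)]
    rw [h5]
    refine h3.trans (add_le_add (expect_le_expect (fun j _ => ?_)) le_rfl)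
    rw [hp]
    dsimp only
    by_cases h6 : (∏ ω, cjj ω (cc (sel ω c.1 c.2) b j)) ≠ 0 ∧
        |∑ ω, sg ω * (-θ (sel ω c.1 c.2) b j)| < V
    · rw [if_pos h6, if_pos]
      refine ⟨?_, ?_⟩
      · have h7 := (Finset.prod_ne_zero_iff.1 h6.1) (fun _ : Fin k => false) (mem_univ _)
        have h8 := dla_cjj_ne_zero _ _ h7
        have h9 : sel (fun _ : Fin k => false) c.1 c.2 = c.1 := by
          funext i
          simp [sel]
        rwa [h9] at h8
      · have h7 := h6.2.le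
        rwa [dla_psi, abs_neg] at h7
    · rw [if_neg h6]
      split_ifs <;> norm_num
  have hsum : (β / 32) ^ (2 ^ k) / 2 ≤ 𝔼 c ∈ boxset k X' ×ˢ boxset k X', 𝔼 b ∈ boxset k X',
      𝔼 j ∈ range (N / X), p c.1 c.2 b j := by
    have h3 : (β / 32) ^ (2 ^ k) ≤ 𝔼 c ∈ boxset k X' ×ˢ boxset k X', 𝔼 b ∈ boxset k X',
      ((𝔼 j ∈ range (N / X), p c.1 c.2 b j) + η) := by
      refine hy.trans ?_
      rw [gcs_re_expect]
      refine expect_le_expect (fun c hc => ?_)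
      rw [gcs_re_expect]
      exact expect_le_expect (fun b hb => hW c hc b hb)
    have h4 : 𝔼 c ∈ boxset k X' ×ˢ boxset k X', 𝔼 b ∈ boxset k X',
      ((𝔼 j ∈ range (N / X), p c.1 c.2 b j) + η) = (𝔼 c ∈ boxset k X' ×ˢ boxset k X',
        𝔼 b ∈ boxset k X', 𝔼 j ∈ range (N / X), p c.1 c.2 b j) + η := by
      simp only [expect_add_distrib]
      rw [expect_const hne, expect_const (hne.product hne)]
    rw [h4] at h3
    linarith
  have hswap : 𝔼 c ∈ boxset k X' ×ˢ boxset k X', 𝔼 b ∈ boxset k X',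
      𝔼 j ∈ range (N / X), p c.1 c.2 b j = 𝔼 j ∈ range (N / X), 𝔼 a' ∈ boxset k X',
        𝔼 a ∈ boxset k X', 𝔼 b ∈ boxset k X', p a a' b j := by
    rw [expect_product (boxset k X') (boxset k X') (fun c => 𝔼 b ∈ boxset k X',
      𝔼 j ∈ range (N / X), p c.1 c.2 b j)]
    rw [expect_comm (s := boxset k X') (t := boxset k X')]
    rw [expect_comm (s := range (N / X)) (t := boxset k X')]
    refine expect_congr rfl (fun a' _ => ?_)
    rw [expect_comm (s := range (N / X)) (t := boxset k X')]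
    refine expect_congr rfl (fun a _ => ?_)
    exact expect_comm _ _ _
  rw [hswap] at hsum
  have hch : ∀ j, ∃ a' ∈ boxset k X', 𝔼 a' ∈ boxset k X', 𝔼 a ∈ boxset k X',
      𝔼 b ∈ boxset k X', p a a' b j ≤ 𝔼 a ∈ boxset k X', 𝔼 b ∈ boxset k X', p a a' b j :=
    fun j => dla_exists_ge (boxset k X') hne (fun a' => 𝔼 a ∈ boxset k X',
      𝔼 b ∈ boxset k X', p a a' b j)
  choose a' ha' hmax using hch
  refine ⟨r, θ, a', ha', ?_⟩
  have hfin : β / 16 * (𝔼 j ∈ range (N / X), 𝔼 a ∈ boxset k X', 𝔼 b ∈ boxset k X',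
      p a (a' j) b j) ≤ 𝔼 j ∈ range (N / X), 𝔼 a ∈ boxset k X', 𝔼 b ∈ boxset k X',
          (if |θ a b j - psiSum θ (a' j) a b j| ≤ V then
            ‖𝔼 t ∈ range X, cube u a b (r + ((j * X + t : ℕ) : ZMod N)) * e (-(θ a b j * t))‖
          else 0) := by
    rw [mul_expect]
    refine expect_le_expect (fun j _ => ?_)
    rw [mul_expect]
    refine expect_le_expect (fun a _ => ?_)
    rw [mul_expect]
    refine expect_le_expect (fun b _ => ?_)
    rw [hp]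
    dsimp only
    by_cases h6 : cc a b j ≠ 0 ∧ |θ a b j - psiSum θ (a' j) a b j| ≤ V
    · rw [if_pos h6, if_pos h6.2, mul_one]
      have hg : dla_good X r (cube u a b) (θ0 (a, b)) β j := dla_cc_ne h6.1
      have h7 := dla_S_good hg
      have h8 := hg.2
      rw [← h7] at h8
      exact h8
    · rw [if_neg h6, mul_zero]
      split_ifs
      · exact norm_nonneg _
      · exact le_rfl
  refine le_trans ?_ hfin
  have h10 : (β / 32) ^ (2 ^ k) / 2 ≤ 𝔼 j ∈ range (N / X), 𝔼 a ∈ boxset k X',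
      𝔼 b ∈ boxset k X', p a (a' j) b j :=
    hsum.trans (expect_le_expect (fun j _ => hmax j))
  calc (β / 32) ^ (2 ^ k + 1) = β / 16 * ((β / 32) ^ (2 ^ k) / 2) := by
        rw [pow_succ]
        ring
    _ ≤ _ := mul_le_mul_of_nonneg_left h10 (by positivity)

end dla_steps

/-! ### numbers -/

section dla_num

theorem dla_pow_le_half {δ : ℝ} (h0 : 0 < δ) (h1 : δ ≤ 1 / 2) (m : ℕ) : δ ^ m ≤ (1 / 2) ^ m :=
  pow_le_pow_left₀ h0.le h1 m

theorem dla_num1 {δ : ℝ} (h0 : 0 < δ) (h1 : δ ≤ 1 / 2) (n k : ℕ) {X X' : ℝ} (hX : 0 < X)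
    (h : X' ≤ δ ^ (n + k + 3) * X) : (k : ℝ) * (4 * X' / X) ≤ δ ^ n / 2 := by
  have h2 : X' / X ≤ δ ^ (n + k + 3) := by
    rwa [div_le_iff₀ hX]
  have h3 : δ ^ (n + k + 3) = δ ^ n * δ ^ (k + 3) := by
    rw [add_assoc, pow_add]
  have h4 := dla_pow_le_half h0 h1 (k + 3)
  have h5 : (k : ℝ) * (1 / 2) ^ k ≤ 1 := by
    have h6 : (k : ℝ) ≤ 2 ^ k := by exact_mod_cast (Nat.lt_two_pow_self (n := k)).le
    rw [one_div, inv_pow, ← div_eq_mul_inv, div_le_one (by positivity)]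
    exact h6
  have hn : 0 < δ ^ n := pow_pos h0 n
  calc (k : ℝ) * (4 * X' / X) = 4 * (k : ℝ) * (X' / X) := by ring
    _ ≤ 4 * (k : ℝ) * (δ ^ n * (1 / 2) ^ (k + 3)) := by
        refine mul_le_mul_of_nonneg_left ?_ (by positivity)
        rw [h3] at h2
        exact h2.trans (mul_le_mul_of_nonneg_left h4 hn.le)
    _ = (k * (1 / 2) ^ k) * (δ ^ n / 2) := by
        rw [pow_add]
        ring
    _ ≤ 1 * (δ ^ n / 2) := mul_le_mul_of_nonneg_right h5 (by positivity)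
    _ = δ ^ n / 2 := one_mul _

theorem dla_num2 {δ : ℝ} (h0 : 0 < δ) (h1 : δ ≤ 1 / 2) (n k : ℕ) {X N : ℝ} (hN : 0 < N)
    (h : X ≤ δ ^ (n + k + 3) * N) : 2 * X / N ≤ δ ^ n / 4 := by
  have h2 : X / N ≤ δ ^ (n + k + 3) := by
    rwa [div_le_iff₀ hN]
  have h3 : δ ^ (n + k + 3) = δ ^ n * δ ^ k * δ ^ 3 := by
    rw [pow_add, pow_add]
  have h4 := dla_pow_le_half h0 h1 3
  have h5 : δ ^ k ≤ 1 := pow_le_one₀ h0.le (by linarith)
  have hn : 0 < δ ^ n := pow_pos h0 n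
  have hk : 0 < δ ^ k := pow_pos h0 k
  have h6 : δ ^ n * δ ^ k ≤ δ ^ n * 1 := mul_le_mul_of_nonneg_left h5 hn.le
  have h7 : δ ^ n * δ ^ k * δ ^ 3 ≤ δ ^ n * 1 * (1 / 2) ^ 3 :=
    mul_le_mul h6 h4 (by positivity) (by positivity)
  calc 2 * X / N = 2 * (X / N) := by ring
    _ ≤ 2 * (δ ^ n * 1 * (1 / 2) ^ 3) := by linarith
    _ = δ ^ n / 4 := by ring

theorem dla_num3 {δ : ℝ} (h0 : 0 < δ) (h1 : δ ≤ 1 / 2) (n k e' : ℕ) :
    δ ^ ((n + 5) * (2 ^ k + 1) + e') ≤ (δ ^ n / 32) ^ (2 ^ k + 1) := by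
  have h2 : δ ^ (n + 5) ≤ δ ^ n / 32 := by
    have h3 := dla_pow_le_half h0 h1 5
    rw [pow_add]
    calc δ ^ n * δ ^ 5 ≤ δ ^ n * (1 / 2) ^ 5 := mul_le_mul_of_nonneg_left h3 (by positivity)
      _ = δ ^ n / 32 := by ring
  calc δ ^ ((n + 5) * (2 ^ k + 1) + e') ≤ δ ^ ((n + 5) * (2 ^ k + 1)) :=
        pow_le_pow_of_le_one h0.le (by linarith) (by omega)
    _ = (δ ^ (n + 5)) ^ (2 ^ k + 1) := by rw [pow_mul]
    _ ≤ _ := pow_le_pow_left₀ (by positivity) h2 _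

theorem dla_num4 {δ : ℝ} (h0 : 0 < δ) (h1 : δ ≤ 1 / 2) (n k n2 : ℕ) (h2 : 2 * n + 2 * k + 4 ≤ n2)
    {Y : ℝ} (hY : 0 < Y) :
    2 ^ k * (8 * (1 + 2 ^ k * δ⁻¹ ^ n) / (δ ^ n * Y)) ≤ δ⁻¹ ^ n2 / Y := by
  have hi : (2 : ℝ) ≤ δ⁻¹ := by
    rw [le_inv_comm₀ (by norm_num) h0]
    linarith
  have hi1 : (1 : ℝ) ≤ δ⁻¹ := by linarith
  have h3 : δ⁻¹ ^ (2 * n + 2 * k + 4) ≤ δ⁻¹ ^ n2 := pow_le_pow_right₀ hi1 h2
  have h4 : (2 : ℝ) ^ (2 * k + 4) ≤ δ⁻¹ ^ (2 * k + 4) := pow_le_pow_left₀ (by norm_num) hi _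
  have h5 : (1 : ℝ) ≤ 2 ^ k * δ⁻¹ ^ n := by
    have h6 : (1 : ℝ) ≤ 2 ^ k := one_le_pow₀ (by norm_num)
    have h7 : (1 : ℝ) ≤ δ⁻¹ ^ n := one_le_pow₀ hi1
    calc (1 : ℝ) = 1 * 1 := by ring
      _ ≤ _ := mul_le_mul h6 h7 (by norm_num) (by positivity)
  have hn : 0 < δ⁻¹ ^ n := by positivity
  have hinv : 1 / δ ^ n = δ⁻¹ ^ n := by
    rw [inv_pow, one_div]
  calc 2 ^ k * (8 * (1 + 2 ^ k * δ⁻¹ ^ n) / (δ ^ n * Y))
      = (2 ^ k * 8 * (1 + 2 ^ k * δ⁻¹ ^ n) * (1 / δ ^ n)) / Y := by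
        field_simp
    _ = (2 ^ k * 8 * (1 + 2 ^ k * δ⁻¹ ^ n) * δ⁻¹ ^ n) / Y := by rw [hinv]
    _ ≤ (2 ^ k * 8 * (2 ^ k * δ⁻¹ ^ n + 2 ^ k * δ⁻¹ ^ n) * δ⁻¹ ^ n) / Y := by
        refine div_le_div_of_nonneg_right ?_ hY.le
        refine mul_le_mul_of_nonneg_right ?_ hn.le
        refine mul_le_mul_of_nonneg_left ?_ (by positivity)
        linarith
    _ = (2 ^ (2 * k + 4) * δ⁻¹ ^ (2 * n)) / Y := by
        congr 1
        rw [pow_add, pow_mul', pow_mul' (δ⁻¹) 2 n]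
        ring
    _ ≤ (δ⁻¹ ^ (2 * k + 4) * δ⁻¹ ^ (2 * n)) / Y := by
        refine div_le_div_of_nonneg_right ?_ hY.le
        exact mul_le_mul_of_nonneg_right h4 (by positivity)
    _ = δ⁻¹ ^ (2 * n + 2 * k + 4) / Y := by
        rw [← pow_add]
        congr 2
        ring
    _ ≤ δ⁻¹ ^ n2 / Y := div_le_div_of_nonneg_right h3 hY.le

end dla_num

theorem dl_A (k : ℕ) (hk : 1 ≤ k) : ∀ n : ℕ, ∃ n2 : ℕ, ∀ n1 : ℕ, ∃ n3 : ℕ,
    ∀ (N : ℕ) [NeZero N] (ι : Type) (Ω : Finset ι) (F : ι → ZMod N → ℂ) (κ u : ZMod N → ℂ)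
      (δ Y : ℝ) (X X' : ℕ), DLData Ω F κ u → 0 < δ → δ ≤ 1 / 2 → Adm (δ⁻¹ ^ n) Y u →
      1 ≤ Y → Y ≤ X → (X : ℝ) ≤ δ ^ n3 * N → δ ^ n ≤ Box (k + 2) X u →
      1 ≤ X' → (X' : ℝ) ≤ δ ^ n3 * X →
      LPh Ω F k X' X (δ⁻¹ ^ n2 / Y) (δ⁻¹ ^ n1 / X) (δ ^ n2) →
      ∃ (r : ZMod N) (θ : (Fin k → ℕ) → (Fin k → ℕ) → ℕ → ℝ) (a' : ℕ → Fin k → ℕ),
        (∀ j, a' j ∈ boxset k X') ∧
        δ ^ n2 ≤ 𝔼 j ∈ range (N / X), 𝔼 a ∈ boxset k X', 𝔼 b ∈ boxset k X',
          (if |θ a b j - psiSum θ (a' j) a b j| ≤ δ⁻¹ ^ n1 / X then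
            ‖𝔼 t ∈ range X, cube u a b (r + ((j * X + t : ℕ) : ZMod N)) * e (-(θ a b j * t))‖
          else 0) := by
  intro n
  refine ⟨(n + 5) * (2 ^ k + 1) + (2 * n + 2 * k + 4), fun n1 => ⟨n + k + 3, ?_⟩⟩
  intro N _ ι Ω F κ u δ Y X X' D h0 h1 hA hY hYX hXN hBox hX' hX'X hLP
  have hX0 : (0 : ℝ) < X := by linarith
  have hN0 : (0 : ℝ) < N := by exact_mod_cast Nat.pos_of_ne_zero (NeZero.ne N)
  have h2 : δ ^ (n + k + 3) ≤ 1 / 2 := by
    calc δ ^ (n + k + 3) ≤ δ ^ 1 := pow_le_pow_of_le_one h0.le (by linarith) (by omega)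
      _ = δ := pow_one δ
      _ ≤ 1 / 2 := h1
  have h3 : X' ≤ X := by
    have : (X' : ℝ) ≤ X := by
      refine hX'X.trans ?_
      calc δ ^ (n + k + 3) * (X : ℝ) ≤ 1 / 2 * X := mul_le_mul_of_nonneg_right h2 hX0.le
        _ ≤ X := by linarith
    exact_mod_cast this
  have h4 : 2 * X ≤ N := by
    have : 2 * (X : ℝ) ≤ N := by
      have h5 : δ ^ (n + k + 3) * (N : ℝ) ≤ 1 / 2 * N := mul_le_mul_of_nonneg_right h2 hN0.le
      linarith
    exact_mod_cast this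
  have h6 := dla_num3 h0 h1 n k (2 * n + 2 * k + 4)
  have hβ : 0 < δ ^ n := pow_pos h0 n
  have hβ1 : δ ^ n ≤ 1 := pow_le_one₀ h0.le (by linarith)
  obtain ⟨r, θ, a', ha', hfin⟩ := dla_main hk D hA hY X X' hYX hX' h3 h4 hβ hBox
    (dla_num1 h0 h1 n k hX0 hX'X) (dla_num2 h0 h1 n k hN0 hXN)
    (by
      refine h6.trans ?_
      rw [pow_succ]
      have h7 : 0 < (δ ^ n / 32) ^ 2 ^ k := by positivity
      calc (δ ^ n / 32) ^ 2 ^ k * (δ ^ n / 32) ≤ (δ ^ n / 32) ^ 2 ^ k * (1 / 2) :=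
            mul_le_mul_of_nonneg_left (by linarith) h7.le
        _ = (δ ^ n / 32) ^ 2 ^ k / 2 := by ring)
    (dla_num4 h0 h1 n k ((n + 5) * (2 ^ k + 1) + (2 * n + 2 * k + 4)) (by omega)
      (by linarith : (0 : ℝ) < Y)) hLP
  exact ⟨r, θ, a', ha', h6.trans hfin⟩

end

end Pool.Agent.Helper57.NX
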